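import Mathlib

/-! Sets in `ℝ³` with no five coplanar points and `|A + A| ≤ 3 |A| ^ (log₂ 3)`. -/

namespace Pool.Agent.Results.MP_4fa8e2_co.PowerSaving

open Finset Pointwise Matrix

abbrev V := Fin 3 → ℝ

/-- No five points of `A` lie on a common affine plane `{x | a ⬝ x = c}`, `a ≠ 0`. -/
def Generic5 (A : Finset V) : Prop :=
  ∀ (a : V) (c : ℝ), a ≠ 0 → ∀ s ⊆ A, s.card = 5 → ¬ ∀ x ∈ s, a ⬝ᵥ x = c

def NoColl (A : Finset V) : Prop :=
  ∀ p ∈ A, ∀ q ∈ A, ∀ r ∈ A, p ≠ q → p ≠ r → q ≠ r → (q - p) ⨯₃ (r - p) ≠ 0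

theorem avoid (T : Finset (V × ℝ)) : ∃ v : V, ∀ x ∈ T, x.1 ≠ 0 → x.1 ⬝ᵥ v ≠ x.2 := by
  have h : ∀ x : V × ℝ, x.1 ≠ 0 → {t : ℝ | x.1 ⬝ᵥ ![t, t ^ 2, t ^ 3] = x.2}.Finite := by
    intro x hx
    let P : Polynomial ℝ := Polynomial.C (x.1 2) * Polynomial.X ^ 3 +
      Polynomial.C (x.1 1) * Polynomial.X ^ 2 + Polynomial.C (x.1 0) * Polynomial.X +
      Polynomial.C (-x.2)
    have hP : P ≠ 0 := by
      intro h0
      apply hx
      have h1 := congrArg (Polynomial.coeff · 1) h0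
      have h2 := congrArg (Polynomial.coeff · 2) h0
      have h3 := congrArg (Polynomial.coeff · 3) h0
      simp [P, Polynomial.coeff_X, Polynomial.coeff_C] at h1 h2 h3
      funext i; fin_cases i <;> simp [h1, h2, h3]
    refine (Polynomial.rootSet_finite P ℝ).subset fun t ht => ?_
    rw [Polynomial.mem_rootSet]
    refine ⟨hP, ?_⟩
    simp only [Set.mem_setOf_eq, dotProduct, Fin.sum_univ_three] at ht
    simp at ht
    simp [P]
    linarith
  have h2 : (⋃ x ∈ T.filter (·.1 ≠ 0), {t : ℝ | x.1 ⬝ᵥ ![t, t ^ 2, t ^ 3] = x.2}).Finite :=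
    Set.Finite.biUnion (Finset.finite_toSet _) fun x hx => h x (Finset.mem_filter.1 hx).2
  obtain ⟨t, ht⟩ := h2.exists_notMem
  refine ⟨![t, t ^ 2, t ^ 3], fun x hx h0 e => ht ?_⟩
  exact Set.mem_biUnion (Finset.mem_coe.2 (Finset.mem_filter.2 ⟨hx, h0⟩)) e

theorem par {a u w x : V} (ha : a ≠ 0) (h1 : a ⬝ᵥ u = 0) (h2 : a ⬝ᵥ w = 0) (h3 : a ⬝ᵥ x = 0) :
    (u ⨯₃ w) ⬝ᵥ x = 0 := by
  by_contra h
  apply ha
  simp only [dotProduct, Fin.sum_univ_three, cross_apply] at *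
  simp only [cons_val_zero, cons_val_one, Matrix.cons_val] at h
  funext i
  fin_cases i
  · refine mul_left_cancel₀ h ?_
    simp only [Fin.zero_eta, Pi.zero_apply]
    linear_combination (w 1 * x 2 - w 2 * x 1) * h1 + (x 1 * u 2 - x 2 * u 1) * h2 +
      (u 1 * w 2 - u 2 * w 1) * h3
  · refine mul_left_cancel₀ h ?_
    simp only [Fin.mk_one, Pi.zero_apply]
    linear_combination (w 2 * x 0 - w 0 * x 2) * h1 + (x 2 * u 0 - x 0 * u 2) * h2 +
      (u 2 * w 0 - u 0 * w 2) * h3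
  · refine mul_left_cancel₀ h ?_
    simp only [Fin.reduceFinMk, Pi.zero_apply]
    linear_combination (w 0 * x 1 - w 1 * x 0) * h1 + (x 0 * u 1 - x 1 * u 0) * h2 +
      (u 0 * w 1 - u 1 * w 0) * h3

theorem cyc (p q r : V) : (q - p) ⨯₃ (r - p) = (r - q) ⨯₃ (p - q) := by
  funext i; fin_cases i <;> simp [cross_apply] <;> ring

theorem step (A : Finset V) (h1 : NoColl A) (h2 : Generic5 A) :
    ∃ B : Finset V, NoColl B ∧ Generic5 B ∧ B.card = 2 * A.card ∧
      (B + B).card ≤ 3 * (A + A).card := by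
  classical
  set D : Finset V := (A - A) ∪ univ.image fun i : Fin 3 => Pi.single i (1 : ℝ) with hD
  obtain ⟨v, hv⟩ := avoid ((D ×ˢ D ×ˢ D).image
    fun x => (x.1 ⨯₃ x.2.1, (x.1 ⨯₃ x.2.1) ⬝ᵥ x.2.2))
  have star : ∀ u ∈ D, ∀ w ∈ D, ∀ d ∈ D, u ⨯₃ w ≠ 0 → (u ⨯₃ w) ⬝ᵥ (v - d) ≠ 0 := by
    intro u hu w hw d hd h0 e
    refine hv _ (mem_image.2 ⟨(u, w, d), by simp [hu, hw, hd], rfl⟩) h0 ?_
    rw [dotProduct_sub] at e
    exact sub_eq_zero.1 e
  have dm : ∀ p ∈ A, ∀ q ∈ A, p - q ∈ D := fun p hp q hq => mem_union_left _ (sub_mem_sub hp hq)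
  have em : ∀ i : Fin 3, (Pi.single i (1 : ℝ) : V) ∈ D := fun i =>
    mem_union_right _ (mem_image.2 ⟨i, mem_univ _, rfl⟩)
  have nv : ∀ d ∈ D, v - d ≠ 0 := fun d hd e =>
    star _ (em 1) _ (em 2) d hd (fun h => by simpa [cross_apply] using congrFun h 0) (by simp [e])
  have two : ∀ u ∈ D, u ≠ 0 → ∀ d ∈ D, u ⨯₃ (v - d) ≠ 0 := by
    intro u hu h0 d hd e
    have h3 : ∀ i, (Pi.single i (1 : ℝ) : V) ⨯₃ u = 0 := fun i => by
      by_contra h
      refine star _ (em i) u hu d hd h ?_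
      rw [dotProduct_comm, triple_product_permutation, e]
      simp
    apply h0
    have a1 := congrFun (h3 0) 1
    have a2 := congrFun (h3 0) 2
    have a3 := congrFun (h3 1) 2
    simp [cross_apply] at a1 a2 a3
    funext i; fin_cases i <;> simp [a1, a2, a3]
  have twoP : ∀ p ∈ A, ∀ q ∈ A, ∀ b ∈ A, p ≠ q → (q - p) ⨯₃ (b + v - p) ≠ 0 := by
    intro p hp q hq b hb hne
    rw [show b + v - p = v - (p - b) by abel]
    exact two _ (dm q hq p hp) (sub_ne_zero.2 hne.symm) _ (dm p hp b hb)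
  have twoM : ∀ p ∈ A, ∀ q ∈ A, ∀ b ∈ A, p + v ≠ q + v →
      (q + v - (p + v)) ⨯₃ (b - (p + v)) ≠ 0 := by
    intro p hp q hq b hb hne
    rw [show b - (p + v) = -(v - (b - p)) by abel, show q + v - (p + v) = q - p by abel, map_neg,
      neg_ne_zero]
    exact two _ (dm q hq p hp) (sub_ne_zero.2 fun h => hne (by rw [h])) _ (dm b hb p hp)
  have hmem : ∀ x, x ∈ A ∪ A.image (· + v) ↔ x ∈ A ∨ ∃ y ∈ A, y + v = x := fun x => by
    rw [mem_union, mem_image]
  refine ⟨A ∪ A.image (· + v), ?_, ?_, ?_, ?_⟩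
  · intro p' hp' q' hq' r' hr' e1 e2 e3
    rcases (hmem p').1 hp' with hp | ⟨p, hp, rfl⟩ <;>
      rcases (hmem q').1 hq' with hq | ⟨q, hq, rfl⟩ <;>
      rcases (hmem r').1 hr' with hr | ⟨r, hr, rfl⟩
    · exact h1 _ hp _ hq _ hr e1 e2 e3
    · exact twoP _ hp _ hq _ hr e1
    · rw [cyc, cyc]; exact twoP _ hr _ hp _ hq e2.symm
    · rw [cyc]; exact twoM _ hq _ hr _ hp e3
    · rw [cyc]; exact twoP _ hq _ hr _ hp e3
    · rw [cyc, cyc]; exact twoM _ hr _ hp _ hq e2.symm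
    · exact twoM _ hp _ hq _ hr e1
    · rw [add_sub_add_right_eq_sub, add_sub_add_right_eq_sub]
      exact h1 p hp q hq r hr (fun h => e1 (by rw [h])) (fun h => e2 (by rw [h]))
        (fun h => e3 (by rw [h]))
  · intro a c ha s hs h5 hc
    have hcard := card_filter_add_card_filter_not (s := s) (· ∈ A)
    have hout : ∀ x ∈ s.filter (fun x => ¬ x ∈ A), x ∈ s ∧ ∃ y ∈ A, y + v = x := fun x hx =>
      ⟨(mem_filter.1 hx).1, ((hmem x).1 (hs (mem_filter.1 hx).1)).resolve_left (mem_filter.1 hx).2⟩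
    by_cases h3 : 2 < (s.filter (· ∈ A)).card
    · obtain ⟨p, q, r, hp, hq, hr, e1, e2, e3⟩ := two_lt_card_iff.1 h3
      rw [mem_filter] at hp hq hr
      rcases (s.filter (fun x => ¬ x ∈ A)).eq_empty_or_nonempty with h0 | ⟨x, hx⟩
      · refine h2 a c ha s (fun x hx => ?_) h5 hc
        by_contra hxA
        exact (filter_eq_empty_iff.1 h0) hx hxA
      · obtain ⟨hxs, b, hb, rfl⟩ := hout x hx
        refine star _ (dm q hq.2 p hp.2) _ (dm r hr.2 p hp.2) _ (dm p hp.2 b hb)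
          (h1 p hp.2 q hq.2 r hr.2 e1 e2 e3) (par ha ?_ ?_ ?_)
        · rw [dotProduct_sub, hc _ hp.1, hc _ hq.1, sub_self]
        · rw [dotProduct_sub, hc _ hp.1, hc _ hr.1, sub_self]
        · rw [show v - (p - b) = b + v - p by abel, dotProduct_sub, hc _ hp.1, hc _ hxs, sub_self]
    · obtain ⟨p', q', r', hp', hq', hr', e1, e2, e3⟩ :=
        (two_lt_card_iff (s := s.filter (fun x => ¬ x ∈ A))).1 (by omega)
      obtain ⟨hps, p, hp, rfl⟩ := hout p' hp'
      obtain ⟨hqs, q, hq, rfl⟩ := hout q' hq'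
      obtain ⟨hrs, r, hr, rfl⟩ := hout r' hr'
      rcases (s.filter (· ∈ A)).eq_empty_or_nonempty with h0 | ⟨b, hb⟩
      · refine h2 a (c - a ⬝ᵥ v) ha (s.image (· - v)) (fun x hx => ?_)
          (by rw [card_image_of_injective _ (sub_left_injective), h5]) fun x hx => ?_
        · obtain ⟨y, hy, rfl⟩ := mem_image.1 hx
          obtain ⟨-, z, hz, rfl⟩ := hout y (mem_filter.2 ⟨hy, (filter_eq_empty_iff.1 h0) hy⟩)
          simpa using hz
        · obtain ⟨y, hy, rfl⟩ := mem_image.1 hx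
          rw [dotProduct_sub, hc y hy]
      · rw [mem_filter] at hb
        refine star _ (dm q hq p hp) _ (dm r hr p hp) _ (dm b hb.2 p hp)
          (h1 p hp q hq r hr (fun h => e1 (by rw [h])) (fun h => e2 (by rw [h]))
            (fun h => e3 (by rw [h]))) (par ha ?_ ?_ ?_)
        · rw [show q - p = q + v - (p + v) by abel, dotProduct_sub, hc _ hps, hc _ hqs, sub_self]
        · rw [show r - p = r + v - (p + v) by abel, dotProduct_sub, hc _ hps, hc _ hrs, sub_self]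
        · rw [show v - (b - p) = p + v - b by abel, dotProduct_sub, hc _ hps, hc _ hb.1, sub_self]
  · rw [card_union_of_disjoint, card_image_of_injective _ (add_left_injective v), two_mul]
    rw [disjoint_left]
    intro x hx hx2
    obtain ⟨y, hy, rfl⟩ := mem_image.1 hx2
    exact nv _ (dm _ hx y hy) (by abel)
  · have hsub : (A ∪ A.image (· + v)) + (A ∪ A.image (· + v)) ⊆
        (A + A) ∪ ((A + A).image (· + v) ∪ (A + A).image (· + (v + v))) := by
      intro z hz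
      obtain ⟨x', hx', y', hy', rfl⟩ := mem_add.1 hz
      rcases (hmem x').1 hx' with hx | ⟨x, hx, rfl⟩ <;>
        rcases (hmem y').1 hy' with hy | ⟨y, hy, rfl⟩
      · exact mem_union_left _ (add_mem_add hx hy)
      · exact mem_union_right _ (mem_union_left _ (mem_image.2 ⟨_, add_mem_add hx hy, by abel⟩))
      · exact mem_union_right _ (mem_union_left _ (mem_image.2 ⟨_, add_mem_add hx hy, by abel⟩))
      · exact mem_union_right _ (mem_union_right _ (mem_image.2 ⟨_, add_mem_add hx hy, by abel⟩))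
    have t1 := card_le_card hsub
    have t2 := card_union_le (A + A) ((A + A).image (· + v) ∪ (A + A).image (· + (v + v)))
    have t3 := card_union_le ((A + A).image (· + v)) ((A + A).image (· + (v + v)))
    have t4 : ((A + A).image (· + v)).card ≤ (A + A).card := card_image_le
    have t5 : ((A + A).image (· + (v + v))).card ≤ (A + A).card := card_image_le
    omega

theorem cube (k : ℕ) : ∃ A : Finset V, NoColl A ∧ Generic5 A ∧ A.card = 2 ^ k ∧
    (A + A).card ≤ 3 ^ k := by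
  induction k with
  | zero =>
    refine ⟨{0}, ?_, ?_, by simp, by simp⟩
    · intro p hp q hq r _ e
      exact absurd ((mem_singleton.1 hp).trans (mem_singleton.1 hq).symm) e
    · intro a c _ s hs h5
      have := card_le_card hs
      simp [h5] at this
  | succ k ih =>
    obtain ⟨A, h1, h2, h3, h4⟩ := ih
    obtain ⟨B, g1, g2, g3, g4⟩ := step A h1 h2
    exact ⟨B, g1, g2, by rw [g3, h3, pow_succ'], by rw [pow_succ']; omega⟩

theorem result (n : ℕ) (hn : 1 ≤ n) : ∃ A : Finset V, A.card = n ∧ Generic5 A ∧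
    ((A + A).card : ℝ) / (A.card : ℝ) ≤ 3 * (n : ℝ) ^ (Real.logb 2 3 - 1) := by
  obtain ⟨A, -, h2, h3, h4⟩ := cube (Nat.log 2 n + 1)
  have h5 : n ≤ A.card := by rw [h3]; exact (Nat.lt_pow_succ_log_self (by norm_num) n).le
  obtain ⟨B, hB, hc⟩ := exists_subset_card_eq h5
  refine ⟨B, hc, fun a c ha s hs => h2 a c ha s (hs.trans hB), ?_⟩
  have h6 : (B + B).card ≤ 3 ^ (Nat.log 2 n + 1) := (card_le_card (add_subset_add hB hB)).trans h4
  have hn0 : (0 : ℝ) < n := by exact_mod_cast hn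
  have h7 : ((2 : ℝ) ^ Nat.log 2 n) ≤ n := by
    exact_mod_cast Nat.pow_log_le_self 2 (by omega : n ≠ 0)
  have h8 : (3 : ℝ) ^ Nat.log 2 n ≤ (n : ℝ) ^ Real.logb 2 3 := by
    calc (3 : ℝ) ^ Nat.log 2 n = ((2 : ℝ) ^ Nat.log 2 n) ^ Real.logb 2 3 := by
          rw [← Real.rpow_natCast 2, ← Real.rpow_mul (by norm_num), mul_comm,
            Real.rpow_mul (by norm_num), Real.rpow_logb (by norm_num) (by norm_num) (by norm_num),
            Real.rpow_natCast]
      _ ≤ _ := Real.rpow_le_rpow (by positivity) h7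
          (Real.logb_nonneg (by norm_num) (by norm_num))
  rw [hc, div_le_iff₀ hn0, Real.rpow_sub_one hn0.ne', mul_assoc, div_mul_cancel₀ _ hn0.ne']
  have h9 : ((B + B).card : ℝ) ≤ 3 ^ (Nat.log 2 n + 1) := by exact_mod_cast h6
  rw [pow_succ'] at h9
  linarith

end Pool.Agent.Results.MP_4fa8e2_co.PowerSaving
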